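import Mathlib

set_option autoImplicit false

namespace Pool.Agent.Results.MP_78c384_co.K33

open SimpleGraph

/-- The length of `[L, R] ∩ [L', R']` (zero if the intersection is empty). -/
noncomputable def overlap (L R L' R' : ℝ) : ℝ := max 0 (min R R' - max L L')

/-- Bounded tolerance graph: intervals `[L v, R v]`, tolerances `0 < t v ≤ |I_v|`. -/
def BoundedTolerance {V : Type} (G : SimpleGraph V) : Prop :=
  ∃ L R t : V → ℝ, (∀ v, L v ≤ R v ∧ 0 < t v ∧ t v ≤ R v - L v) ∧
    ∀ x y, x ≠ y → (G.Adj x y ↔ min (t x) (t y) ≤ overlap (L x) (R x) (L y) (R y))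

/-- Max-tolerance graph: intervals `[L v, R v]`, tolerances `0 < t v`. -/
def MaxTolerance {V : Type} (G : SimpleGraph V) : Prop :=
  ∃ L R t : V → ℝ, (∀ v, L v ≤ R v ∧ 0 < t v) ∧
    ∀ x y, x ≠ y → (G.Adj x y ↔ max (t x) (t y) ≤ overlap (L x) (R x) (L y) (R y))

section
variable {α : Type} {a b c : α → ℝ}

def Ed (a b c : α → ℝ) (u v : α) : Prop :=
  max (a u) (a v) + max (b u) (b v) + max (c u) (c v) ≤ 0

def T (a b c : α → ℝ) (u v : α) : Prop := 0 < a u + b v + c v ∨ 0 < a v + b u + c u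

def N (a b c : α → ℝ) (u v : α) : Prop := T a b c u v ∨ T b a c u v ∨ T c a b u v

lemma un {u v : α} (h : Ed a b c u v) :
    a u + b u + c u ≤ 0 ∧ a u + b u + c v ≤ 0 ∧ a u + b v + c u ≤ 0 ∧ a u + b v + c v ≤ 0 ∧
    a v + b u + c u ≤ 0 ∧ a v + b u + c v ≤ 0 ∧ a v + b v + c u ≤ 0 ∧ a v + b v + c v ≤ 0 := by
  unfold Ed at h
  have := le_max_left (a u) (a v); have := le_max_right (a u) (a v)
  have := le_max_left (b u) (b v); have := le_max_right (b u) (b v)
  have := le_max_left (c u) (c v); have := le_max_right (c u) (c v)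
  refine ⟨?_, ?_, ?_, ?_, ?_, ?_, ?_, ?_⟩ <;> linarith

lemma Ed.sy {u v : α} (h : Ed a b c u v) : Ed a b c v u := by
  unfold Ed at *; rw [max_comm (a v), max_comm (b v), max_comm (c v)]; exact h
lemma Ed.p1 {u v : α} (h : Ed a b c u v) : Ed b a c u v := by unfold Ed at *; linarith
lemma Ed.p2 {u v : α} (h : Ed a b c u v) : Ed c a b u v := by unfold Ed at *; linarith

lemma N.p1 {u v : α} (h : N a b c u v) : N b a c u v := by
  simp only [N, T] at *
  rcases h with h | h | h | h
  · exact Or.inr (Or.inl h)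
  · exact Or.inl h
  · exact Or.inr (Or.inr (Or.inl (by linarith)))
  · exact Or.inr (Or.inr (Or.inr (by linarith)))

lemma N.p2 {u v : α} (h : N a b c u v) : N c a b u v := by
  simp only [N, T] at *
  rcases h with (h | h) | (h | h) | h
  · exact Or.inr (Or.inl (Or.inl (by linarith)))
  · exact Or.inr (Or.inl (Or.inr (by linarith)))
  · exact Or.inr (Or.inr (Or.inl (by linarith)))
  · exact Or.inr (Or.inr (Or.inr (by linarith)))
  · exact Or.inl h

lemma split {u v : α} (h : ¬ Ed a b c u v) (hu : a u + b u + c u ≤ 0)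
    (hv : a v + b v + c v ≤ 0) : N a b c u v := by
  by_contra hn
  simp only [N, T, not_or, not_lt] at hn
  obtain ⟨⟨h1, h2⟩, ⟨h3, h4⟩, h5, h6⟩ := hn
  apply h
  unfold Ed
  rcases max_cases (a u) (a v) with ⟨e1, -⟩ | ⟨e1, -⟩ <;>
    rcases max_cases (b u) (b v) with ⟨e2, -⟩ | ⟨e2, -⟩ <;>
    rcases max_cases (c u) (c v) with ⟨e3, -⟩ | ⟨e3, -⟩ <;> rw [e1, e2, e3] <;> linarith

lemma side {x1 x2 x3 y z : α} (d1 : 0 < a x1 + b x2 + c x2) (d2 : 0 < a x2 + b x3 + c x3)
    (e1 : Ed a b c x1 y) (e2 : Ed a b c x2 y) (e3 : Ed a b c x3 y)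
    (f1 : Ed a b c x1 z) (f2 : Ed a b c x2 z) (f3 : Ed a b c x3 z) (h : N a b c y z) :
    (b y < b x2 ∧ b x2 < b z) ∨ (b z < b x2 ∧ b x2 < b y) := by
  obtain ⟨_, _, _, _, _, _, _, _⟩ := un e1
  obtain ⟨_, _, _, _, _, _, _, _⟩ := un e2
  obtain ⟨_, _, _, _, _, _, _, _⟩ := un e3
  obtain ⟨_, _, _, _, _, _, _, _⟩ := un f1
  obtain ⟨_, _, _, _, _, _, _, _⟩ := un f2
  obtain ⟨_, _, _, _, _, _, _, _⟩ := un f3
  rcases h with (h | h) | (h | h) | (h | h)
  · exfalso; linarith
  · exfalso; linarith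
  · right; constructor <;> linarith
  · left; constructor <;> linarith
  · left; constructor <;> linarith
  · right; constructor <;> linarith

lemma chain (x y : Fin 3 → α) (E : ∀ i j, Ed a b c (x i) (y j))
    (hN : ∀ i j, i ≠ j → N a b c (y i) (y j)) (i j k : Fin 3)
    (d1 : 0 < a (x i) + b (x j) + c (x j)) (d2 : 0 < a (x j) + b (x k) + c (x k)) : False := by
  have s := fun p q (h : p ≠ q) =>
    side d1 d2 (E i p) (E j p) (E k p) (E i q) (E j q) (E k q) (hN p q h)
  rcases s 0 1 (by decide) with h1 | h1 <;> rcases s 0 2 (by decide) with h2 | h2 <;>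
    rcases s 1 2 (by decide) with h3 | h3 <;> linarith [h1.1, h1.2, h2.1, h2.2, h3.1, h3.2]

lemma mono (x y : Fin 3 → α) (E : ∀ i j, Ed a b c (x i) (y j))
    (hN : ∀ i j, i ≠ j → N a b c (y i) (y j)) (h1 : T a b c (x 0) (x 1))
    (h2 : T a b c (x 0) (x 2)) (h3 : T a b c (x 1) (x 2)) : False := by
  have s := chain x y E hN
  rcases h1 with h1 | h1 <;> rcases h2 with h2 | h2 <;> rcases h3 with h3 | h3 <;>
    first | exact s _ _ _ h1 h3 | exact s _ _ _ h2 h3 | exact s _ _ _ h1 h2
          | exact s _ _ _ h2 h1 | exact s _ _ _ h3 h1 | exact s _ _ _ h3 h2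

lemma clash (x y : Fin 3 → α) (E : ∀ i j, Ed a b c (x i) (y j)) {i j k l : Fin 3}
    (h1 : T a b c (x i) (x j)) (h2 : T a b c (y k) (y l)) : False := by
  obtain ⟨_, _, _, _, _, _, _, _⟩ := un (E i k)
  obtain ⟨_, _, _, _, _, _, _, _⟩ := un (E i l)
  obtain ⟨_, _, _, _, _, _, _, _⟩ := un (E j k)
  obtain ⟨_, _, _, _, _, _, _, _⟩ := un (E j l)
  rcases h1 with h1 | h1 <;> rcases h2 with h2 | h2 <;> linarith

lemma core (x y : Fin 3 → α) (E : ∀ i j, Ed a b c (x i) (y j))
    (hX : ∀ i j, i ≠ j → N a b c (x i) (x j)) (hY : ∀ i j, i ≠ j → N a b c (y i) (y j)) :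
    False := by
  have xa := mono x y E hY
  have xb := mono x y (fun i j => (E i j).p1) (fun i j h => (hY i j h).p1)
  have xc := mono x y (fun i j => (E i j).p2) (fun i j h => (hY i j h).p2)
  have ya := mono y x (fun i j => (E j i).sy) hX
  have yb := mono y x (fun i j => (E j i).sy.p1) (fun i j h => (hX i j h).p1)
  have yc := mono y x (fun i j => (E j i).sy.p2) (fun i j h => (hX i j h).p2)
  have ca := @clash _ _ _ _ x y E
  have cb := @clash _ _ _ _ x y (fun i j => (E i j).p1)
  have cc := @clash _ _ _ _ x y (fun i j => (E i j).p2)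
  rcases hX 0 1 (by decide) with h1 | h1 | h1 <;> rcases hX 0 2 (by decide) with h2 | h2 | h2 <;>
    rcases hX 1 2 (by decide) with h3 | h3 | h3 <;>
    first
    | exact xa h1 h2 h3 | exact xb h1 h2 h3 | exact xc h1 h2 h3
    | rcases hY 0 1 (by decide) with g1 | g1 | g1 <;>
        first
        | exact ca h1 g1 | exact ca h2 g1 | exact ca h3 g1
        | exact cb h1 g1 | exact cb h2 g1 | exact cb h3 g1
        | exact cc h1 g1 | exact cc h2 g1 | exact cc h3 g1
        | rcases hY 0 2 (by decide) with g2 | g2 | g2 <;>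
            first
            | exact ca h1 g2 | exact ca h2 g2 | exact ca h3 g2
            | exact cb h1 g2 | exact cb h2 g2 | exact cb h3 g2
            | exact cc h1 g2 | exact cc h2 g2 | exact cc h3 g2
            | rcases hY 1 2 (by decide) with g3 | g3 | g3 <;>
                first
                | exact ca h1 g3 | exact ca h2 g3 | exact ca h3 g3
                | exact cb h1 g3 | exact cb h2 g3 | exact cb h3 g3
                | exact cc h1 g3 | exact cc h2 g3 | exact cc h3 g3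
                | exact ya g1 g2 g3 | exact yb g1 g2 g3 | exact yc g1 g2 g3

end

noncomputable def L0 : Fin 3 ⊕ Fin 3 → ℝ := Sum.elim ![0, 1, 2] ![3, 4, 5]
noncomputable def R0 : Fin 3 ⊕ Fin 3 → ℝ := Sum.elim ![10, 11, 12] ![5, 6, 7]
noncomputable def t0 : Fin 3 ⊕ Fin 3 → ℝ := Sum.elim ![10, 10, 10] ![2, 2, 2]

theorem result : BoundedTolerance (completeBipartiteGraph (Fin 3) (Fin 3)) ∧
    ¬ MaxTolerance (completeBipartiteGraph (Fin 3) (Fin 3)) := by
  constructor
  · refine ⟨L0, R0, t0, ?_, ?_⟩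
    · rintro (v | v) <;> fin_cases v <;> simp [L0, R0, t0] <;> norm_num
    · rintro (x | x) (y | y) h <;> fin_cases x <;> fin_cases y <;>
        first
        | exact absurd rfl h
        | simp [L0, R0, t0, overlap] <;> norm_num
  · rintro ⟨L, R, t, h0, h⟩
    have key : ∀ u v, u ≠ v → ((completeBipartiteGraph (Fin 3) (Fin 3)).Adj u v ↔
        Ed L (fun v => -R v) t u v) := by
      intro u v huv
      have hp : 0 < max (t u) (t v) := lt_max_of_lt_left (h0 u).2
      rw [h u v huv, overlap, le_max_iff, Ed, max_neg_neg]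
      constructor
      · rintro (h' | h') <;> linarith
      · intro h'; right; linarith
    have E : ∀ i j : Fin 3, Ed L (fun v => -R v) t (Sum.inl i) (Sum.inr j) :=
      fun i j => (key _ _ (by simp)).1 (by simp)
    refine core (fun i => Sum.inl i) (fun i => Sum.inr i) E (fun i j hij => ?_) (fun i j hij => ?_)
    · exact split (fun e => by simpa using (key _ _ (by simpa using hij)).2 e)
        (un (E i 0)).1 (un (E j 0)).1
    · exact split (fun e => by simpa using (key _ _ (by simpa using hij)).2 e)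
        (un (E 0 i).sy).1 (un (E 0 j).sy).1

end Pool.Agent.Results.MP_78c384_co.K33
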